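import Pool.Agent.H93.EB.Defs

/-!
# The energy argument for structure on windows: one window and one prime number, definitions

The windows are `(n, n + N]`; in the main statement `N = 2 ^ 15 L` and the window
`(n, n + J N]` is divided into the `J` windows `(n + j N, n + j N + N]`.
-/

set_option autoImplicit false

open Finset Pool.Agent.H6.N4D Pool.Agent.H93.EB

namespace Pool.Agent.H28.EN

/-- the correlation of the real function `f` with the wave `cos 2π(θ m + φ)` on the window -/
noncomputable def G (f : ℕ → ℝ) (N n : ℕ) (θ φ : ℝ) : ℝ :=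
  (∑ m ∈ Ioc n (n + N), f m * Real.cos (2 * Real.pi * (θ * m + φ))) / N

/-- the function `q 1_(q | m) lam m` -/
noncomputable def fq (lam : ℕ → ℝ) (q m : ℕ) : ℝ := (if q ∣ m then (q : ℝ) else 0) * lam m

/-- the function `(q 1_(q | m) - 1) lam m` -/
noncomputable def dq (lam : ℕ → ℝ) (q m : ℕ) : ℝ := D q m * lam m

/-- the wave `(θ, φ)` has the largest correlation on the window -/
def Top (f : ℕ → ℝ) (N n : ℕ) (θ φ : ℝ) : Prop := ∀ θ' φ' : ℝ, G f N n θ' φ' ≤ G f N n θ φ

/-- the frequency of the wave which differs from `(θ, φ)` by `r + s (m - n) / N` -/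
noncomputable def th (N : ℕ) (θ s : ℝ) : ℝ := θ + s / N

/-- the phase of the wave which differs from `(θ, φ)` by `r + s (m - n) / N` -/
noncomputable def ph (N n : ℕ) (φ r s : ℝ) : ℝ := φ + r - s * n / N

/-- the point `(m - n) / N` of `[0, 1]` -/
noncomputable def tt (N n m : ℕ) : ℝ := ((m : ℝ) - n) / N

/-- the window `(n, n + 2 ^ 15 L]` is regular: the energy does not decrease by more than
`10 ^ (-8)` from its `2 ^ 15` parts to the window -/
def Reg (lam : ℕ → ℝ) (L n : ℕ) : Prop :=
  (∑ u ∈ range (2 ^ 15), M lam L (n + u * L) ^ 2) / 2 ^ 15 ≤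
    M lam (2 ^ 15 * L) n ^ 2 + 1 / 10 ^ 8

/-- the derivative of `phi` -/
noncomputable def dph (x : ℝ) : ℝ := 2 * max (x - 63 / 100) 0

/-- the distance of `phi` from its tangent at `b` -/
noncomputable def brg (a b : ℝ) : ℝ := phi a - phi b - dph b * (a - b)

end Pool.Agent.H28.EN
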