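import Pool.Agent.H28.EN.CLA

/-!
# The comparison of the waves of a window and of one of its parts (row BRK)
-/

set_option autoImplicit false

open Finset Pool.Agent.H6.N4D Pool.Agent.H93.EB

namespace Pool.Agent.H28.EN

lemma dph_nonneg (x : ℝ) : 0 ≤ dph x := by unfold dph; positivity

lemma dph_le {b : ℝ} (hb : b ≤ 1) : dph b ≤ 1 := by
  unfold dph
  rcases max_cases (b - 63 / 100) 0 with ⟨h, _⟩ | ⟨h, _⟩ <;> rw [h] <;> linarith

/-- the first part of the difference -/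
lemma first_part (h10 : T_PHI) {a b z Z η : ℝ} (hη : 0 < η) (hz : |z| ≤ Z) :
    (dph a - dph b) * z ≤ η * brg a b + Z ^ 2 / η := by
  obtain ⟨_, _, _, p4, _⟩ := h10
  have h1 := p4 a b
  have h2 : z ^ 2 ≤ Z ^ 2 := by rw [← sq_abs z]; exact pow_le_pow_left₀ (abs_nonneg z) hz 2
  have h3 : (dph a - dph b) * z ≤ η / 4 * (dph a - dph b) ^ 2 + z ^ 2 / η := by
    have h4 : 0 ≤ ((dph a - dph b) * η / 2 - z) ^ 2 := sq_nonneg _
    have h5 : (dph a - dph b) * z * η ≤ η ^ 2 / 4 * (dph a - dph b) ^ 2 + z ^ 2 := by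
      nlinarith
    have h6 : (dph a - dph b) * z = ((dph a - dph b) * z * η) / η := by field_simp
    have h7 : η / 4 * (dph a - dph b) ^ 2 + z ^ 2 / η =
        (η ^ 2 / 4 * (dph a - dph b) ^ 2 + z ^ 2) / η := by field_simp
    rw [h6, h7]
    exact div_le_div_of_nonneg_right h5 hη.le
  have h8 : z ^ 2 / η ≤ Z ^ 2 / η := div_le_div_of_nonneg_right h2 hη.le
  have h9 : η / 4 * (dph a - dph b) ^ 2 ≤ η / 4 * (4 * brg a b) :=
    mul_le_mul_of_nonneg_left h1 (by positivity)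
  linarith

/-- `d D ≤ c η d + D² / (4 c η)` for `0 ≤ d ≤ 1` -/
lemma second_part {d D c η : ℝ} (hd : 0 ≤ d) (hd1 : d ≤ 1) (hc : 0 < c) (hη : 0 < η) :
    d * D ≤ c * η * d + D ^ 2 / (4 * c * η) := by
  have h1 : 0 ≤ (2 * c * η - D) ^ 2 := sq_nonneg _
  have h2 : 0 < 4 * c * η := by positivity
  have h3 : D ≤ c * η + D ^ 2 / (4 * c * η) := by
    have h4 : D = (D * (4 * c * η)) / (4 * c * η) := by field_simp
    have h5 : c * η + D ^ 2 / (4 * c * η) = (c * η * (4 * c * η) + D ^ 2) / (4 * c * η) := by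
      field_simp
    rw [h5]
    conv_lhs => rw [h4]
    apply div_le_div_of_nonneg_right _ h2.le
    nlinarith
  have h6 : 0 ≤ D ^ 2 / (4 * c * η) := by positivity
  calc d * D ≤ d * (c * η + D ^ 2 / (4 * c * η)) := mul_le_mul_of_nonneg_left h3 hd
    _ = c * η * d + d * (D ^ 2 / (4 * c * η)) := by ring
    _ ≤ c * η * d + 1 * (D ^ 2 / (4 * c * η)) := by
        have := mul_le_mul_of_nonneg_right hd1 h6
        linarith
    _ = _ := by ring

/-- both parts together -/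
lemma combine {x1 x2 bg dl Z Z' Y I η : ℝ} (hη : 0 < η) (hI : 0 ≤ I) (hdl : 0 ≤ dl)
    (h1 : x1 ≤ η * bg + Z ^ 2 / η)
    (h2 : x2 ≤ η * bg + η * dl + 10 ^ 4 / η * (Z ^ 2 + Z' ^ 2 + Y ^ 2 + I)) :
    x1 + x2 ≤ 2 * η * (bg + dl) + 10 ^ 5 / η * (Z ^ 2 + Z' ^ 2 + Y ^ 2 + I) := by
  have e2 : (10 : ℝ) ^ 5 / η * (Z ^ 2 + Z' ^ 2 + Y ^ 2 + I) =
      10 ^ 4 / η * (Z ^ 2 + Z' ^ 2 + Y ^ 2 + I) +
      9 * 10 ^ 4 / η * (Z ^ 2 + Z' ^ 2 + Y ^ 2 + I) := by
    field_simp; ring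
  have e4 : Z ^ 2 / η ≤ 9 * 10 ^ 4 / η * (Z ^ 2 + Z' ^ 2 + Y ^ 2 + I) := by
    have e5 : 9 * 10 ^ 4 / η * (Z ^ 2 + Z' ^ 2 + Y ^ 2 + I) =
        (9 * 10 ^ 4 * (Z ^ 2 + Z' ^ 2 + Y ^ 2 + I)) / η := by ring
    rw [e5]
    apply div_le_div_of_nonneg_right _ hη.le
    nlinarith [sq_nonneg Z, sq_nonneg Z', sq_nonneg Y]
  have e7 : 0 ≤ η * dl := mul_nonneg hη.le hdl
  rw [e2]; linarith

theorem pf_BRK (h2 : T_TOP) (h4 : T_FAR) (h5 : T_SLO)
    (h6 : T_PK1) (h7 : T_PK2) (h8 : T_DIF) (h9 : T_TST) (h10 : T_PHI) : T_BRK := by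
  intro lam q L n θ φ θ' φ' b η hl hq hL hqL hη hη1 hb ht hG
  have hN : 1 ≤ 2 ^ 15 * L := by omega
  have hqN : q ≤ 2 ^ 15 * L := by omega
  have hN2 : 2 ^ 15 ≤ 2 ^ 15 * L := by omega
  set N := 2 ^ 15 * L with hNdef
  have hN' : (0 : ℝ) < N := by exact_mod_cast hN
  obtain ⟨bv1, t1, _, t3⟩ := h9 lam q N n θ hN hq hqN hl
  obtain ⟨_, s1, _, s3⟩ := h9 lam q N n θ' hN hq hqN hl
  have hz := t1 φ
  have hz' := s1 φ'
  have hM1 : M lam N n ≤ 1 := M_le_one h2 hl hN
  have hd0 := dph_nonneg b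
  have hd1 := dph_le hb
  set a := M lam N n with ha
  set z := G (dq lam q) N n θ φ with hzdef
  set z' := G (dq lam q) N n θ' φ' with hzdef'
  set Z := zz lam q N n θ (fun _ => 1) with hZ
  set Z' := zz lam q N n θ' (fun _ => 1) with hZ'
  have hZ0 : 0 ≤ Z := norm_nonneg _
  have hZ0' : 0 ≤ Z' := norm_nonneg _
  have hl0 : 0 ≤ a - G lam N n θ' φ' := by
    rw [← hG]; linarith [ht θ' φ']
  have hfirst := first_part h10 (a := a) (b := b) hη hz
  obtain ⟨p1, p2, p3, p4, p5, p6⟩ := h10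
  have hbrg : 0 ≤ brg a b := by nlinarith [p4 a b, sq_nonneg (dph a - dph b)]
  have hind : 0 ≤ ind (¬ Reg lam L n) := by unfold ind; split_ifs <;> norm_num
  have hsplit : dph a * z - dph b * z' = (dph a - dph b) * z + dph b * (z - z') := by ring
  have hη1' : 1 ≤ 1 / η := by rw [le_div_iff₀ hη]; linarith
  have hzz : (z - z') ^ 2 ≤ 2 * Z ^ 2 + 2 * Z' ^ 2 := by
    have e1 : z ^ 2 ≤ Z ^ 2 := by rw [← sq_abs z]; exact pow_le_pow_left₀ (abs_nonneg z) hz 2
    have e2 : z' ^ 2 ≤ Z' ^ 2 := by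
      rw [← sq_abs z']; exact pow_le_pow_left₀ (abs_nonneg z') hz' 2
    nlinarith [sq_nonneg (z + z')]
  -- it is enough to bound the second part
  have key : ∀ Y : ℝ, 0 ≤ Y → dph b * (z - z') ≤ η * brg a b +
      η * (dph b * (a - G lam N n θ' φ')) + 10 ^ 4 / η * (Z ^ 2 + Z' ^ 2 + Y ^ 2 +
        ind (¬ Reg lam L n)) →
      dph a * z - dph b * z' ≤ 2 * η * (brg a b + dph b * (a - G lam N n θ' φ')) +
        10 ^ 5 / η * (Z ^ 2 + Z' ^ 2 + Y ^ 2 + ind (¬ Reg lam L n)) := by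
    intro Y hY h
    rw [hsplit]
    exact combine hη hind (mul_nonneg hd0 hl0) hfirst h
  have hYI : ∀ Y : ℝ, 0 ≤ 10 ^ 4 / η * (Z ^ 2 + Z' ^ 2 + Y ^ 2 + ind (¬ Reg lam L n)) := by
    intro Y; positivity
  rcases le_or_gt b (63 / 100) with hb63 | hb63
  · -- `dph b = 0`
    refine ⟨fun _ => 1, bv1, key Z hZ0 ?_⟩
    have h02 : dph b = 0 := by
      unfold dph; rw [max_eq_right (by linarith)]; norm_num
    rw [h02]
    have := hYI Z
    nlinarith [mul_nonneg hη.le hbrg]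
  · rcases le_or_gt a (62 / 100) with ha62 | ha62
    · -- small correlation on the part
      refine ⟨fun _ => 1, bv1, key Z hZ0 ?_⟩
      have e1 := second_part (D := z - z') hd0 hd1 (show (0 : ℝ) < 1 / 100 by norm_num) hη
      have e2 := p5 a b ha62
      have e3 : (z - z') ^ 2 / (4 * (1 / 100) * η) ≤ 10 ^ 4 / η * (Z ^ 2 + Z' ^ 2) := by
        have : (z - z') ^ 2 / (4 * (1 / 100) * η) = 25 / η * (z - z') ^ 2 := by
          field_simp; ring
        rw [this]
        have e4 : 25 / η * (z - z') ^ 2 ≤ 25 / η * (2 * Z ^ 2 + 2 * Z' ^ 2) :=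
          mul_le_mul_of_nonneg_left hzz (by positivity)
        have e5 : 10 ^ 4 / η * (Z ^ 2 + Z' ^ 2) = 25 / η * (2 * Z ^ 2 + 2 * Z' ^ 2) +
            9950 / η * (Z ^ 2 + Z' ^ 2) := by field_simp; ring
        have e6 : 0 ≤ 9950 / η * (Z ^ 2 + Z' ^ 2) := by positivity
        linarith
      have e7 : 10 ^ 4 / η * (Z ^ 2 + Z' ^ 2 + Z ^ 2 + ind (¬ Reg lam L n)) =
          10 ^ 4 / η * (Z ^ 2 + Z' ^ 2) + 10 ^ 4 / η * (Z ^ 2 + ind (¬ Reg lam L n)) := by ring
      have e8 : 0 ≤ 10 ^ 4 / η * (Z ^ 2 + ind (¬ Reg lam L n)) := by positivity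
      have e9 : 1 / 100 * η * dph b ≤ η * brg a b := by nlinarith
      have e10 : 0 ≤ η * (dph b * (a - G lam N n θ' φ')) :=
        mul_nonneg hη.le (mul_nonneg hd0 hl0)
      rw [e7]; linarith
    · by_cases hR : Reg lam L n
      · rcases h5 1 N n θ φ θ' φ' le_rfl hN with ⟨r, s, hr, hs, hcos⟩ | ⟨hf1, hf2⟩
        · -- near
          obtain ⟨g, hg, hdif⟩ := h8 lam q N n θ φ r s hN
          have hg0 : 0 ≤ zz lam q N n θ g := norm_nonneg _
          refine ⟨g, hg, key _ hg0 ?_⟩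
          have e1 : ∀ f : ℕ → ℝ, G f N n θ' φ' = G f N n (th N θ s) (ph N n φ r s) := by
            intro f
            exact G_congr (q := 1) (fun m hm => absurd (one_dvd m) hm) hcos
          have hM62 : 62 / 100 ≤ M lam N n := ha62.le
          have e3 := peak h6 h7 hl hL hR ht hG hM62 hr hs
          rw [← hNdef, hG, ← e1 lam] at e3
          have e4 := (abs_le.1 hdif).1
          rw [← e1 (dq lam q)] at e4
          have e5 : 2 * Real.pi * (|r| + |s|) * zz lam q N n θ g ≤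
              (|r| + |s|) ^ 2 * (η / 1000) + 10 * zz lam q N n θ g ^ 2 / (η / 1000) :=
            am_gm (by positivity)
          have e6 : 10 * zz lam q N n θ g ^ 2 / (η / 1000) =
              10 ^ 4 / η * zz lam q N n θ g ^ 2 := by field_simp; ring
          have e7 : z - z' ≤ η * (a - G lam N n θ' φ') + 10 ^ 4 / η * zz lam q N n θ g ^ 2 := by
            have e8 : (|r| + |s|) ^ 2 * (η / 1000) ≤ η * (a - G lam N n θ' φ') := by
              have := mul_le_mul_of_nonneg_left e3 hη.le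
              linarith
            linarith
          have e9 : 0 ≤ 10 ^ 4 / η * zz lam q N n θ g ^ 2 := by positivity
          have e10 : dph b * (z - z') ≤ η * (dph b * (a - G lam N n θ' φ')) +
              10 ^ 4 / η * zz lam q N n θ g ^ 2 := by
            have f1 := mul_le_mul_of_nonneg_left e7 hd0
            have f2 := mul_le_mul_of_nonneg_right hd1 e9
            nlinarith
          have e11 : 10 ^ 4 / η * (Z ^ 2 + Z' ^ 2 + zz lam q N n θ g ^ 2 +
              ind (¬ Reg lam L n)) = 10 ^ 4 / η * zz lam q N n θ g ^ 2 +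
              10 ^ 4 / η * (Z ^ 2 + Z' ^ 2 + ind (¬ Reg lam L n)) := by ring
          have e12 : 0 ≤ 10 ^ 4 / η * (Z ^ 2 + Z' ^ 2 + ind (¬ Reg lam L n)) := by positivity
          have e13 : 0 ≤ η * brg a b := mul_nonneg hη.le hbrg
          rw [e11]; linarith
        · -- far
          refine ⟨fun _ => 1, bv1, key Z hZ0 ?_⟩
          have f1 := h4 lam 1 N n θ φ θ' φ' le_rfl hN (fun m => by simpa using hl m) hf1 hf2
          have f3 : ((1 : ℕ) : ℝ) / N ≤ 1 / 100 := by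
            rw [div_le_iff₀ hN']
            have : (2 ^ 15 : ℝ) ≤ N := by exact_mod_cast hN2
            push_cast
            linarith
          have f4 : (1 : ℝ) / 10 ≤ a - G lam N n θ' φ' := by
            rw [hG] at f1
            linarith
          have e1 := second_part (D := z - z') hd0 hd1 (show (0 : ℝ) < 1 / 10 by norm_num) hη
          have e3 : (z - z') ^ 2 / (4 * (1 / 10) * η) ≤ 10 ^ 4 / η * (Z ^ 2 + Z' ^ 2) := by
            have : (z - z') ^ 2 / (4 * (1 / 10) * η) = 5 / 2 / η * (z - z') ^ 2 := by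
              field_simp; ring
            rw [this]
            have e4 : 5 / 2 / η * (z - z') ^ 2 ≤ 5 / 2 / η * (2 * Z ^ 2 + 2 * Z' ^ 2) :=
              mul_le_mul_of_nonneg_left hzz (by positivity)
            have e5 : 10 ^ 4 / η * (Z ^ 2 + Z' ^ 2) = 5 / 2 / η * (2 * Z ^ 2 + 2 * Z' ^ 2) +
                9995 / η * (Z ^ 2 + Z' ^ 2) := by field_simp; ring
            have e6 : 0 ≤ 9995 / η * (Z ^ 2 + Z' ^ 2) := by positivity
            linarith
          have e7 : 10 ^ 4 / η * (Z ^ 2 + Z' ^ 2 + Z ^ 2 + ind (¬ Reg lam L n)) =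
              10 ^ 4 / η * (Z ^ 2 + Z' ^ 2) +
              10 ^ 4 / η * (Z ^ 2 + ind (¬ Reg lam L n)) := by ring
          have e8 : 0 ≤ 10 ^ 4 / η * (Z ^ 2 + ind (¬ Reg lam L n)) := by positivity
          have e9 : 1 / 10 * η * dph b ≤ η * (dph b * (a - G lam N n θ' φ')) := by
            have := mul_le_mul_of_nonneg_left f4 (mul_nonneg hη.le hd0)
            linarith
          have e10 : 0 ≤ η * brg a b := mul_nonneg hη.le hbrg
          rw [e7]; linarith
      · -- irregular windows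
        refine ⟨fun _ => 1, bv1, key Z hZ0 ?_⟩
        have g1 : ind (¬ Reg lam L n) = 1 := by unfold ind; rw [if_pos hR]
        rw [g1]
        have e1 : z - z' ≤ 6 := by
          have := t3 _ bv1
          have := s3 _ bv1
          have := (abs_le.1 hz).2
          have := (abs_le.1 hz').1
          linarith
        have e2 : dph b * (z - z') ≤ 6 := by
          calc dph b * (z - z') ≤ dph b * 6 := mul_le_mul_of_nonneg_left e1 hd0
            _ ≤ 1 * 6 := mul_le_mul_of_nonneg_right hd1 (by norm_num)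
            _ = 6 := by norm_num
        have e3 : (10 : ℝ) ^ 4 ≤ 10 ^ 4 / η := by
          rw [le_div_iff₀ hη]; nlinarith
        have e4 : (10 : ℝ) ^ 4 / η * (Z ^ 2 + Z' ^ 2 + Z ^ 2 + 1) =
            10 ^ 4 / η + 10 ^ 4 / η * (Z ^ 2 + Z' ^ 2 + Z ^ 2) := by ring
        have e5 : 0 ≤ 10 ^ 4 / η * (Z ^ 2 + Z' ^ 2 + Z ^ 2) := by positivity
        have e6 : 0 ≤ η * brg a b := mul_nonneg hη.le hbrg
        have e7 : 0 ≤ η * (dph b * (a - G lam N n θ' φ')) :=
          mul_nonneg hη.le (mul_nonneg hd0 hl0)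
        rw [e4]; linarith

end Pool.Agent.H28.EN
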