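import Pool.Agent.H28.EN.Targets

/-!
# The upper bound on a window (row CLA)
-/

set_option autoImplicit false

open Finset Pool.Agent.H6.N4D Pool.Agent.H93.EB

namespace Pool.Agent.H28.EN

/-- equality of the correlations of two waves which agree on the multiples of `q` -/
lemma G_congr {f : ℕ → ℝ} {q N n : ℕ} {θ φ θ' φ' : ℝ}
    (hf : ∀ m, ¬ q ∣ m → f m = 0)
    (h : ∀ m : ℕ, q ∣ m → Real.cos (2 * Real.pi * (θ' * m + φ')) =
      Real.cos (2 * Real.pi * (θ * m + φ))) : G f N n θ' φ' = G f N n θ φ := by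
  unfold G
  congr 1
  apply sum_congr rfl
  intro m _
  by_cases hm : q ∣ m
  · rw [h m hm]
  · rw [hf m hm]; ring

lemma abs_fq_le {lam : ℕ → ℝ} (h : ∀ m, |lam m| ≤ 1) (q m : ℕ) :
    |fq lam q m| ≤ if q ∣ m then (q : ℝ) else 0 := by
  unfold fq
  split_ifs with hd
  · rw [abs_mul, Nat.abs_cast]
    have := h m
    have h2 : (0 : ℝ) ≤ q := Nat.cast_nonneg q
    nlinarith
  · simp

lemma fq_zero {lam : ℕ → ℝ} (q m : ℕ) (hd : ¬ q ∣ m) : fq lam q m = 0 := by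
  unfold fq; rw [if_neg hd, zero_mul]

lemma M_le_one (h2 : T_TOP) {lam : ℕ → ℝ} (h : ∀ m, |lam m| ≤ 1) {N n : ℕ} (hN : 1 ≤ N) :
    M lam N n ≤ 1 := by
  obtain ⟨_, θ, φ, _, h3⟩ := h2 lam N n
  rw [← h3]
  unfold G
  have hN' : (0 : ℝ) < N := by exact_mod_cast hN
  rw [div_le_one hN']
  calc ∑ m ∈ Ioc n (n + N), lam m * Real.cos (2 * Real.pi * (θ * m + φ))
      ≤ ∑ m ∈ Ioc n (n + N), (1 : ℝ) := by
        apply sum_le_sum
        intro m _
        have h4 := h m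
        have h5 := Real.abs_cos_le_one (2 * Real.pi * (θ * m + φ))
        calc lam m * Real.cos (2 * Real.pi * (θ * m + φ))
            ≤ |lam m * Real.cos (2 * Real.pi * (θ * m + φ))| := le_abs_self _
          _ = |lam m| * |Real.cos (2 * Real.pi * (θ * m + φ))| := abs_mul _ _
          _ ≤ 1 * 1 := mul_le_mul h4 h5 (abs_nonneg _) (by norm_num)
          _ = 1 := by norm_num
    _ = N := by simp

/-- both parts of the peak together -/
lemma peak (h6 : T_PK1) (h7 : T_PK2) {lam : ℕ → ℝ} {L n : ℕ} {θ φ r s : ℝ}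
    (hl : ∀ m, |lam m| ≤ 1) (hL : 1 ≤ L) (hR : Reg lam L n) (ht : Top lam (2 ^ 15 * L) n θ φ)
    (hG : G lam (2 ^ 15 * L) n θ φ = M lam (2 ^ 15 * L) n)
    (hM : 62 / 100 ≤ M lam (2 ^ 15 * L) n) (hr : |r| ≤ 1 / 2) (hs : |s| ≤ 5) :
    (|r| + |s|) ^ 2 / 1000 ≤ G lam (2 ^ 15 * L) n θ φ -
      G lam (2 ^ 15 * L) n (th (2 ^ 15 * L) θ s) (ph (2 ^ 15 * L) n φ r s) := by
  rcases le_total (|r| + |s|) (3 / 10) with h | h
  · exact h6 lam L n θ φ r s hl hL hR ht hG hM h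
  · exact h7 lam L n θ φ r s hl hL hR ht hG hM h hr hs

/-- `2 π ρ Z ≤ ρ² e + π² Z² / e` -/
lemma am_gm {ρ Z e : ℝ} (he : 0 < e) :
    2 * Real.pi * ρ * Z ≤ ρ ^ 2 * e + 10 * Z ^ 2 / e := by
  have hp : Real.pi ^ 2 ≤ 10 := by
    have h1 := Real.pi_lt_d2
    have h2 := Real.pi_pos
    nlinarith
  have h1 : 0 ≤ (ρ * e - Real.pi * Z) ^ 2 := sq_nonneg _
  have h2 : 2 * Real.pi * ρ * Z * e ≤ ρ ^ 2 * e ^ 2 + 10 * Z ^ 2 := by
    have : Real.pi ^ 2 * Z ^ 2 ≤ 10 * Z ^ 2 := mul_le_mul_of_nonneg_right hp (sq_nonneg Z)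
    nlinarith
  have h3 : 2 * Real.pi * ρ * Z = (2 * Real.pi * ρ * Z * e) / e := by field_simp
  rw [h3, div_le_iff₀ he]
  have h4 : (ρ ^ 2 * e + 10 * Z ^ 2 / e) * e = ρ ^ 2 * e ^ 2 + 10 * Z ^ 2 := by
    field_simp
  rw [h4]; exact h2

/-- the final computation near the wave of the window -/
lemma near_bound (h10 : T_PHI) {a mq z Z1 Z2 : ℝ} (ha : a ≤ 1) (hz : |z| ≤ Z1) (hZ : 0 ≤ Z2)
    (hZ3 : Z2 ≤ 3) (h : mq ≤ a + z + 10 ^ 4 * Z2 ^ 2) :
    phi mq ≤ phi a + dph a * z + 10 ^ 10 * (Z1 ^ 2 + Z2 ^ 2) := by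
  obtain ⟨p1, p2, _⟩ := h10
  have h1 : phi mq ≤ phi (a + (z + 10 ^ 4 * Z2 ^ 2)) := p1 _ _ (by linarith)
  have h2 := p2 a (z + 10 ^ 4 * Z2 ^ 2)
  have h3 : dph a ≤ 1 := by
    unfold dph
    rcases max_cases (a - 63 / 100) 0 with ⟨h, _⟩ | ⟨h, _⟩ <;> rw [h] <;> linarith
  have h3' : 0 ≤ dph a := by unfold dph; positivity
  have h4 : z ^ 2 ≤ Z1 ^ 2 := by
    rw [← sq_abs z]
    exact pow_le_pow_left₀ (abs_nonneg z) hz 2
  have h5 : Z2 ^ 4 ≤ 9 * Z2 ^ 2 := by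
    have : Z2 ^ 2 ≤ 9 := by nlinarith
    calc Z2 ^ 4 = Z2 ^ 2 * Z2 ^ 2 := by ring
      _ ≤ 9 * Z2 ^ 2 := mul_le_mul_of_nonneg_right this (sq_nonneg _)
  have h6 : (z + 10 ^ 4 * Z2 ^ 2) ^ 2 ≤ 2 * z ^ 2 + 2 * 10 ^ 8 * Z2 ^ 4 := by
    nlinarith [sq_nonneg (z - 10 ^ 4 * Z2 ^ 2)]
  have h7 : dph a * (10 ^ 4 * Z2 ^ 2) ≤ 1 * (10 ^ 4 * Z2 ^ 2) :=
    mul_le_mul_of_nonneg_right h3 (by positivity)
  nlinarith [sq_nonneg Z2, sq_nonneg Z1]

theorem pf_CLA (h2 : T_TOP) (h3 : T_MQF) (h4 : T_FAR) (h5 : T_SLO)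
    (h6 : T_PK1) (h7 : T_PK2) (h8 : T_DIF) (h9 : T_TST) (h10 : T_PHI) : T_CLA := by
  intro lam q L n θ φ hl hq hL hqL ht hG
  have hN : 1 ≤ 2 ^ 15 * L := by omega
  have hqN : q ≤ 2 ^ 15 * L := by omega
  set N := 2 ^ 15 * L with hNdef
  obtain ⟨_, αq, φq, htq, hGq⟩ := h2 (fq lam q) N n
  obtain ⟨bv1, t1, t2, t3⟩ := h9 lam q N n θ hN hq hqN hl
  obtain ⟨_, s1, s2, s3⟩ := h9 lam q N n αq hN hq hqN hl
  have hMq : Mq lam q N n = G (fq lam q) N n αq φq := by rw [h3, hGq]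
  have hM1 : M lam N n ≤ 1 := M_le_one h2 hl hN
  have hsum : G (fq lam q) N n αq φq = G lam N n αq φq + G (dq lam q) N n αq φq := s2 φq
  have hle : G lam N n αq φq ≤ M lam N n := by rw [← hG]; exact ht _ _
  have hzJ := s1 φq
  have hz := t1 φ
  have hz0 : 0 ≤ zz lam q N n θ (fun _ => 1) := norm_nonneg _
  have hJ0 : 0 ≤ zz lam q N n αq (fun _ => 1) := norm_nonneg _
  obtain ⟨p1, p2, p3, p4, p5, p6⟩ := h10
  have hind : 0 ≤ ind (¬ Reg lam L n) := by unfold ind; split_ifs <;> norm_num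
  have hp6 := p6 (M lam N n) (G (dq lam q) N n θ φ)
  have hzsq : G (dq lam q) N n θ φ ^ 2 ≤ zz lam q N n θ (fun _ => 1) ^ 2 := by
    rw [← sq_abs]; exact pow_le_pow_left₀ (abs_nonneg _) hz 2
  have hJsq : G (dq lam q) N n αq φq ^ 2 ≤ zz lam q N n αq (fun _ => 1) ^ 2 := by
    rw [← sq_abs]; exact pow_le_pow_left₀ (abs_nonneg _) hzJ 2
  by_cases hM63 : M lam N n ≤ 63 / 100
  · -- small correlation
    refine ⟨αq, fun _ => 1, bv1, ?_⟩
    have h01 : phi (M lam N n) = 0 := by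
      unfold phi; rw [max_eq_right (by linarith)]; norm_num
    have h02 : dph (M lam N n) = 0 := by
      unfold dph; rw [max_eq_right (by linarith)]; norm_num
    rw [h01, h02]
    have h03 : phi (Mq lam q N n) ≤ G (dq lam q) N n αq φq ^ 2 := by
      rw [hMq]
      unfold phi
      rcases le_total (G (fq lam q) N n αq φq - 63 / 100) 0 with h | h
      · rw [max_eq_right h]; nlinarith [sq_nonneg (G (dq lam q) N n αq φq)]
      · rw [max_eq_left h]
        apply pow_le_pow_left₀ h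
        linarith
    nlinarith [sq_nonneg (zz lam q N n θ (fun _ => 1))]
  · push Not at hM63
    by_cases hR : Reg lam L n
    · rcases h5 q N n θ φ αq φq hq hN with ⟨r, s, hr, hs, hcos⟩ | ⟨hf1, hf2⟩
      · -- near
        obtain ⟨g, hg, hdif⟩ := h8 lam q N n θ φ r s hN
        refine ⟨αq, g, hg, ?_⟩
        have e1 : G (fq lam q) N n αq φq = G (fq lam q) N n (th N θ s) (ph N n φ r s) :=
          G_congr (q := q) (fun m hm => fq_zero q m hm) hcos
        obtain ⟨_, _, u2, _⟩ := h9 lam q N n (th N θ s) hN hq hqN hl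
        have e2 := u2 (ph N n φ r s)
        have hM62 : 62 / 100 ≤ M lam N n := by linarith
        have e3 := peak h6 h7 hl hL hR ht hG hM62 hr hs
        rw [← hNdef] at e3
        have e4 := (abs_le.1 hdif).2
        have e5 : 2 * Real.pi * (|r| + |s|) * zz lam q N n θ g ≤
            (|r| + |s|) ^ 2 * (1 / 1000) + 10 * zz lam q N n θ g ^ 2 / (1 / 1000) :=
          am_gm (by norm_num)
        have e6 : 10 * zz lam q N n θ g ^ 2 / (1 / 1000) = 10 ^ 4 * zz lam q N n θ g ^ 2 := by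
          ring
        have hg0 : 0 ≤ zz lam q N n θ g := norm_nonneg _
        have e7 := near_bound ⟨p1, p2, p3, p4, p5, p6⟩ hM1 hz hg0 (t3 g hg)
          (mq := Mq lam q N n) (by
            rw [hMq, e1, e2]
            rw [hG] at e3
            linarith)
        nlinarith [sq_nonneg (zz lam q N n αq (fun _ => 1))]
      · -- far
        refine ⟨αq, fun _ => 1, bv1, ?_⟩
        have f1 := h4 (fq lam q) q N n θ φ αq φq hq hN (fun m => abs_fq_le hl q m) hf1 hf2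
        have f2 := t2 φ
        have f3 : (q : ℝ) / N ≤ 1 / 100 := by
          have hN' : (0 : ℝ) < N := by exact_mod_cast hN
          rw [div_le_iff₀ hN']
          have : (100 : ℝ) * q ≤ N := by exact_mod_cast hqL
          linarith
        have f4 : phi (Mq lam q N n) ≤ G (dq lam q) N n θ φ ^ 2 := by
          rw [hMq]
          unfold phi
          rcases le_total (G (fq lam q) N n αq φq - 63 / 100) 0 with h | h
          · rw [max_eq_right h]; nlinarith [sq_nonneg (G (dq lam q) N n θ φ)]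
          · rw [max_eq_left h]
            have h7 : G (fq lam q) N n αq φq - 63 / 100 ≤ - G (dq lam q) N n θ φ := by
              rw [hG] at f2
              linarith
            nlinarith
        nlinarith [sq_nonneg (zz lam q N n αq (fun _ => 1)), sq_nonneg (zz lam q N n θ (fun _ => 1))]
    · -- irregular windows
      refine ⟨αq, fun _ => 1, bv1, ?_⟩
      have g1 : ind (¬ Reg lam L n) = 1 := by unfold ind; rw [if_pos hR]
      have g2 : Mq lam q N n ≤ 4 := by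
        have := s3 (fun _ => 1) bv1
        have := (abs_le.1 hzJ).2
        rw [hMq, hsum]; linarith
      have g3 : phi (Mq lam q N n) ≤ phi 4 := p1 _ _ g2
      have g4 : phi 4 ≤ 12 := by unfold phi; norm_num [max_def]
      rw [g1]
      nlinarith [sq_nonneg (zz lam q N n αq (fun _ => 1)), sq_nonneg (zz lam q N n θ (fun _ => 1))]

end Pool.Agent.H28.EN
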