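import Pool.Agent.H28.EN.Targets2
import Pool.Agent.H28.EN.CLA
import Pool.Agent.H93.EB.Basic
import Pool.Agent.H88.EN.FAR

/-!
# The upper bound on a window with given frequencies (row CL2)
-/

set_option autoImplicit false

open Finset Pool.Agent.H6.N4D Pool.Agent.H93.EB

namespace Pool.Agent.H28.EN

/-- the correlations on the multiples of `q` of two frequencies which differ by a lift and by
`δ` -/
lemma crq_lift {lam : ℕ → ℝ} {q N n : ℕ} {α β δ : ℝ} {b k : ℤ} (hl : ∀ m, |lam m| ≤ 1)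
    (hq : 1 ≤ q) (hN : 1 ≤ N) (hqN : q ≤ N) (h : α - β - (b : ℝ) / q = k + δ)
    (hδ : |δ| ≤ 1 / (10 ^ 4 * (N : ℝ))) :
    ‖crq lam q N n β‖ ≤ ‖crq lam q N n α‖ + 2 / 1000 := by
  have hN' : (0 : ℝ) < N := by exact_mod_cast hN
  have hq' : (0 : ℝ) < q := by exact_mod_cast hq
  set S := (Ioc n (n + N)).filter (fun m => q ∣ m) with hS
  have hcard := Pool.Agent.H88.EN.card_mult q N n hq
  rw [← hS] at hcard
  have hterm : ∀ m ∈ S, ee (-(β * m)) = ee (-(α * m)) * ee (δ * m) := by
    intro m hm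
    rw [hS, mem_filter] at hm
    obtain ⟨c, rfl⟩ := hm.2
    have e1 : -(β * ((q * c : ℕ) : ℝ)) = (-(α * ((q * c : ℕ) : ℝ)) + δ * ((q * c : ℕ) : ℝ)) +
        ((b * c + k * (q * c) : ℤ) : ℝ) := by
      have : β = α - (b : ℝ) / q - k - δ := by linarith
      rw [this]; push_cast; field_simp; ring
    rw [e1, ee_add, ee_add, ee_int, mul_one]
  have hsum : ∑ m ∈ S, (lam m : ℂ) * ee (-(β * m)) =
      ee (δ * n) * ∑ m ∈ S, (lam m : ℂ) * ee (-(α * m)) +
      ∑ m ∈ S, ee (δ * n) * ((lam m : ℂ) * ee (-(α * m)) * (ee (δ * (m - n)) - 1)) := by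
    rw [mul_sum, ← sum_add_distrib]
    apply sum_congr rfl
    intro m hm
    rw [hterm m hm]
    have e1 : δ * (m : ℝ) = δ * n + δ * (m - n) := by ring
    rw [e1, ee_add]; ring
  have herr : ‖∑ m ∈ S, ee (δ * n) * ((lam m : ℂ) * ee (-(α * m)) *
      (ee (δ * (m - n)) - 1))‖ ≤ S.card * (8 / 10 ^ 4) := by
    calc ‖∑ m ∈ S, ee (δ * n) * ((lam m : ℂ) * ee (-(α * m)) * (ee (δ * (m - n)) - 1))‖
        ≤ ∑ m ∈ S, ‖ee (δ * n) * ((lam m : ℂ) * ee (-(α * m)) * (ee (δ * (m - n)) - 1))‖ :=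
          norm_sum_le _ _
      _ ≤ ∑ m ∈ S, (8 / 10 ^ 4 : ℝ) := by
          apply sum_le_sum
          intro m hm
          rw [hS, mem_filter, mem_Ioc] at hm
          rw [norm_mul, norm_mul, norm_mul, norm_ee, norm_ee, one_mul, mul_one,
            Complex.norm_real, Real.norm_eq_abs]
          have e1 := norm_ee_sub_one_le (δ * (m - n))
          have e2 : |δ * ((m : ℝ) - n)| ≤ 1 / 10 ^ 4 := by
            rw [abs_mul]
            have e3 : |(m : ℝ) - n| ≤ N := by
              rw [abs_of_nonneg]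
              · have : (m : ℝ) ≤ n + N := by exact_mod_cast hm.1.2
                linarith
              · have : (n : ℝ) ≤ m := by exact_mod_cast hm.1.1.le
                linarith
            calc |δ| * |(m : ℝ) - n| ≤ 1 / (10 ^ 4 * (N : ℝ)) * N :=
                  mul_le_mul hδ e3 (abs_nonneg _) (by positivity)
              _ = 1 / 10 ^ 4 := by field_simp
          have e4 : 2 * Real.pi * |δ * ((m : ℝ) - n)| ≤ 8 * (1 / 10 ^ 4) := by
            apply mul_le_mul _ e2 (abs_nonneg _) (by norm_num)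
            linarith [Real.pi_le_four]
          calc |lam m| * ‖ee (δ * (m - n)) - 1‖ ≤ 1 * (8 / 10 ^ 4) := by
                apply mul_le_mul (hl m) _ (norm_nonneg _) (by norm_num)
                linarith
            _ = 8 / 10 ^ 4 := by ring
      _ = S.card * (8 / 10 ^ 4) := by rw [sum_const, nsmul_eq_mul]
  have e1 : ‖crq lam q N n β‖ = ‖∑ m ∈ S, (lam m : ℂ) * ee (-(β * m))‖ * (q / N) := by
    unfold crq
    rw [norm_div, norm_mul, Complex.norm_natCast, Complex.norm_natCast, ← hS]; ring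
  have e2 : ‖crq lam q N n α‖ = ‖∑ m ∈ S, (lam m : ℂ) * ee (-(α * m))‖ * (q / N) := by
    unfold crq
    rw [norm_div, norm_mul, Complex.norm_natCast, Complex.norm_natCast, ← hS]; ring
  have e3 : ‖∑ m ∈ S, (lam m : ℂ) * ee (-(β * m))‖ ≤
      ‖∑ m ∈ S, (lam m : ℂ) * ee (-(α * m))‖ + S.card * (8 / 10 ^ 4) := by
    rw [hsum]
    refine (norm_add_le _ _).trans ?_
    rw [norm_mul, norm_ee, one_mul]
    linarith
  rw [e1, e2]
  have e4 := mul_le_mul_of_nonneg_right e3 (show (0 : ℝ) ≤ q / N by positivity)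
  have e5 : (S.card : ℝ) * (8 / 10 ^ 4) * (q / N) ≤ 2 / 1000 := by
    have e6 : (S.card : ℝ) * (8 / 10 ^ 4) * (q / N) = (8 / 10 ^ 4) * ((q * S.card) / N) := by
      ring
    have e7 : ((q : ℝ) * S.card) / N ≤ 2 := by
      rw [div_le_iff₀ hN']
      have : (q : ℝ) ≤ N := by exact_mod_cast hqN
      linarith
    rw [e6]; linarith
  linarith

/-- the jump test -/
lemma jump {lam : ℕ → ℝ} {q N n : ℕ} {α β : ℝ} (hl : ∀ m, |lam m| ≤ 1)
    (hq : 1 ≤ q) (hN : 1 ≤ N) (hqN : q ≤ N) (hβ : ‖crq lam q N n β‖ = Mq lam q N n)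
    (hα : ∃ b : ℤ, nd (α - β - (b : ℝ) / q) ≤ 1 / (10 ^ 4 * (N : ℝ))) :
    Mq lam q N n ≤ M lam N n + zz lam q N n α (fun _ => 1) + 2 / 1000 := by
  obtain ⟨b, hb⟩ := hα
  obtain ⟨k, hk⟩ := exists_int (α - β - (b : ℝ) / q)
  have h1 := crq_lift (n := n) hl hq hN hqN (α := α) (β := β) (b := b) (k := k) (δ := α - β - (b : ℝ) / q - k)
    (by ring) (by rw [hk]; exact hb)
  have h2 : crq lam q N n α = cr lam N n α +
      (∑ m ∈ Ioc n (n + N), (lam m : ℂ) * (D q m : ℂ) * ee (-(α * m)) * 1) / N := by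
    unfold crq cr
    rw [← add_div, ← sum_add_distrib, sum_filter, sum_mul]
    congr 1
    apply sum_congr rfl
    intro m _
    unfold D
    split_ifs with h
    · push_cast; ring
    · push_cast; ring
  have h3 : ‖crq lam q N n α‖ ≤ M lam N n + zz lam q N n α (fun _ => 1) := by
    rw [h2]
    refine (norm_add_le _ _).trans ?_
    have h5 := le_M lam N n α
    have h6 : ‖(∑ m ∈ Ioc n (n + N), (lam m : ℂ) * (D q m : ℂ) * ee (-(α * m)) * 1) /
        (N : ℂ)‖ = zz lam q N n α (fun _ => 1) := rfl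
    rw [h6]
    linarith
  rw [← hβ]; linarith

theorem pf_CL2 (h2 : T_TOP) (h3 : T_MQF) (h4 : T_FAR) (h5 : T_SLO)
    (h6 : T_PK1) (h7 : T_PK2) (h8 : T_DIF) (h9 : T_TST) (h10 : T_PHI) : T_CL2 := by
  intro lam q L n θ φ β α hl hq hL hqL ht hG hβ hα
  have hN : 1 ≤ 2 ^ 15 * L := by omega
  have hqN : q ≤ 2 ^ 15 * L := by omega
  set N := 2 ^ 15 * L with hNdef
  obtain ⟨_, αq, φq, htq, hGq⟩ := h2 (fq lam q) N n
  obtain ⟨bv1, t1, t2, t3⟩ := h9 lam q N n θ hN hq hqN hl
  obtain ⟨_, _, s2, s3⟩ := h9 lam q N n αq hN hq hqN hl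
  have hjump := jump hl hq hN hqN hβ hα
  have hMq : Mq lam q N n = G (fq lam q) N n αq φq := by rw [h3, hGq]
  have hM1 : M lam N n ≤ 1 := M_le_one h2 hl hN
  have hz := t1 φ
  have hz0 : 0 ≤ zz lam q N n θ (fun _ => 1) := norm_nonneg _
  have hJ0 : 0 ≤ zz lam q N n α (fun _ => 1) := norm_nonneg _
  have hJ3 : zz lam q N n α (fun _ => 1) ≤ 3 := (h9 lam q N n α hN hq hqN hl).2.2.2 _ bv1
  obtain ⟨p1, p2, p3, p4, p5, p6⟩ := h10
  have hind : 0 ≤ ind (¬ Reg lam L n) := by unfold ind; split_ifs <;> norm_num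
  have hp6 := p6 (M lam N n) (G (dq lam q) N n θ φ)
  have hzsq : G (dq lam q) N n θ φ ^ 2 ≤ zz lam q N n θ (fun _ => 1) ^ 2 := by
    rw [← sq_abs]; exact pow_le_pow_left₀ (abs_nonneg _) hz 2
  by_cases hM62 : M lam N n ≤ 62 / 100
  · -- small correlation
    refine ⟨fun _ => 1, bv1, ?_⟩
    have h01 : phi (M lam N n) = 0 := by
      unfold phi; rw [max_eq_right (by linarith)]; norm_num
    have h02 : dph (M lam N n) = 0 := by
      unfold dph; rw [max_eq_right (by linarith)]; norm_num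
    rw [h01, h02]
    rcases le_total (Mq lam q N n) (63 / 100) with h | h
    · have h03 : phi (Mq lam q N n) = 0 := by
        unfold phi; rw [max_eq_right (by linarith)]; norm_num
      rw [h03]
      have : 0 ≤ 10 ^ 10 * (zz lam q N n θ (fun _ => 1) ^ 2 +
        zz lam q N n α (fun _ => 1) ^ 2 +
        zz lam q N n θ (fun _ => 1) ^ 2 + ind (¬ Reg lam L n)) := by positivity
      linarith
    · have h04 : 8 / 1000 ≤ zz lam q N n α (fun _ => 1) := by linarith
      have h05 : Mq lam q N n ≤ 4 := by linarith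
      have h06 : phi (Mq lam q N n) ≤ phi 4 := p1 _ _ h05
      have h07 : phi 4 ≤ 12 := by unfold phi; norm_num [max_def]
      have h08 : (8 / 1000 : ℝ) ^ 2 ≤ zz lam q N n α (fun _ => 1) ^ 2 :=
        pow_le_pow_left₀ (by norm_num) h04 2
      nlinarith [sq_nonneg (zz lam q N n θ (fun _ => 1))]
  · push Not at hM62
    by_cases hR : Reg lam L n
    · rcases h5 q N n θ φ αq φq hq hN with ⟨r, s, hr, hs, hcos⟩ | ⟨hf1, hf2⟩
      · -- near
        obtain ⟨g, hg, hdif⟩ := h8 lam q N n θ φ r s hN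
        refine ⟨g, hg, ?_⟩
        have e1 : G (fq lam q) N n αq φq = G (fq lam q) N n (th N θ s) (ph N n φ r s) :=
          G_congr (q := q) (fun m hm => fq_zero q m hm) hcos
        obtain ⟨_, _, u2, _⟩ := h9 lam q N n (th N θ s) hN hq hqN hl
        have e2 := u2 (ph N n φ r s)
        have hM62' : 62 / 100 ≤ M lam N n := hM62.le
        have e3 := peak h6 h7 hl hL hR ht hG hM62' hr hs
        rw [← hNdef] at e3
        have e4 := (abs_le.1 hdif).2
        have e5 : 2 * Real.pi * (|r| + |s|) * zz lam q N n θ g ≤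
            (|r| + |s|) ^ 2 * (1 / 1000) + 10 * zz lam q N n θ g ^ 2 / (1 / 1000) :=
          am_gm (by norm_num)
        have e6 : 10 * zz lam q N n θ g ^ 2 / (1 / 1000) = 10 ^ 4 * zz lam q N n θ g ^ 2 := by
          ring
        have hg0 : 0 ≤ zz lam q N n θ g := norm_nonneg _
        have e7 := near_bound ⟨p1, p2, p3, p4, p5, p6⟩ hM1 hz hg0 (t3 g hg)
          (mq := Mq lam q N n) (by
            rw [hMq, e1, e2]
            rw [hG] at e3
            linarith)
        nlinarith [sq_nonneg (zz lam q N n α (fun _ => 1))]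
      · -- far
        refine ⟨fun _ => 1, bv1, ?_⟩
        have f1 := h4 (fq lam q) q N n θ φ αq φq hq hN (fun m => abs_fq_le hl q m) hf1 hf2
        have f2 := t2 φ
        have f3 : (q : ℝ) / N ≤ 1 / 100 := by
          have hN' : (0 : ℝ) < N := by exact_mod_cast hN
          rw [div_le_iff₀ hN']
          have : (100 : ℝ) * q ≤ N := by exact_mod_cast hqL
          linarith
        have f4 : phi (Mq lam q N n) ≤ G (dq lam q) N n θ φ ^ 2 := by
          rw [hMq]
          unfold phi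
          rcases le_total (G (fq lam q) N n αq φq - 63 / 100) 0 with h | h
          · rw [max_eq_right h]; nlinarith [sq_nonneg (G (dq lam q) N n θ φ)]
          · rw [max_eq_left h]
            have h7 : G (fq lam q) N n αq φq - 63 / 100 ≤ - G (dq lam q) N n θ φ := by
              rw [hG] at f2
              linarith
            nlinarith
        nlinarith [sq_nonneg (zz lam q N n α (fun _ => 1)),
          sq_nonneg (zz lam q N n θ (fun _ => 1))]
    · -- irregular windows
      refine ⟨fun _ => 1, bv1, ?_⟩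
      have g1 : ind (¬ Reg lam L n) = 1 := by unfold ind; rw [if_pos hR]
      have g2 : Mq lam q N n ≤ 5 := by linarith
      have g3 : phi (Mq lam q N n) ≤ phi 5 := p1 _ _ g2
      have g4 : phi 5 ≤ 20 := by unfold phi; norm_num [max_def]
      rw [g1]
      nlinarith [sq_nonneg (zz lam q N n α (fun _ => 1)),
        sq_nonneg (zz lam q N n θ (fun _ => 1))]

end Pool.Agent.H28.EN
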