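import Pool.Agent.H28.EN.Targets

/-!
# The energy argument for structure on windows: the statements CLA and ONE with given
maximal frequencies and given lifts

The frequency `al` of the jump test is any number near a lift of a maximal frequency `be` of the
correlation on the multiples of `q`.
-/

set_option autoImplicit false

open Finset Pool.Agent.H6.N4D Pool.Agent.H93.EB

namespace Pool.Agent.H28.EN

/-- CL2. The upper bound on a window. -/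
def T_CL2 : Prop := ∀ (lam : ℕ → ℝ) (q L n : ℕ) (θ φ β α : ℝ), (∀ m, |lam m| ≤ 1) →
  1 ≤ q → 1 ≤ L → 100 * q ≤ 2 ^ 15 * L →
  Top lam (2 ^ 15 * L) n θ φ → G lam (2 ^ 15 * L) n θ φ = M lam (2 ^ 15 * L) n →
  ‖crq lam q (2 ^ 15 * L) n β‖ = Mq lam q (2 ^ 15 * L) n →
  (∃ b : ℤ, nd (α - β - (b : ℝ) / q) ≤ 1 / (10 ^ 4 * ((2 ^ 15 * L : ℕ) : ℝ))) →
  ∃ g : ℕ → ℂ, BV (2 ^ 15 * L) n g ∧
    phi (Mq lam q (2 ^ 15 * L) n) ≤ phi (M lam (2 ^ 15 * L) n) +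
      dph (M lam (2 ^ 15 * L) n) * G (dq lam q) (2 ^ 15 * L) n θ φ +
      10 ^ 10 * (zz lam q (2 ^ 15 * L) n θ (fun _ => 1) ^ 2 +
        zz lam q (2 ^ 15 * L) n α (fun _ => 1) ^ 2 +
        zz lam q (2 ^ 15 * L) n θ g ^ 2 + ind (¬ Reg lam L n))

/-- ON2. The main inequality for one window and one prime number, with given maximal frequencies
`tV j` of the parts, `tW` of the window, `be j` of the parts for the multiples of `q`, and given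
numbers `al j` near lifts of `be j`. -/
def T_ON2 : Prop := ∃ C : ℝ, 0 < C ∧ ∀ (lam : ℕ → ℝ) (q L J n : ℕ) (η : ℝ) (tV : ℕ → ℝ)
  (tW : ℝ) (be al : ℕ → ℝ),
  (∀ m, |lam m| ≤ 1) → 0 < η → η ≤ 1 → 1 ≤ q → 1 ≤ L → 1 ≤ J → 100 * q ≤ 2 ^ 15 * L →
  (∀ j < J, ‖cr lam (2 ^ 15 * L) (n + j * (2 ^ 15 * L)) (tV j)‖ =
    M lam (2 ^ 15 * L) (n + j * (2 ^ 15 * L))) →
  ‖cr lam (J * (2 ^ 15 * L)) n tW‖ = M lam (J * (2 ^ 15 * L)) n →
  (∀ j < J, ‖crq lam q (2 ^ 15 * L) (n + j * (2 ^ 15 * L)) (be j)‖ =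
    Mq lam q (2 ^ 15 * L) (n + j * (2 ^ 15 * L))) →
  (∀ j < J, ∃ b : ℤ,
    nd (al j - be j - (b : ℝ) / q) ≤ 1 / (10 ^ 4 * ((2 ^ 15 * L : ℕ) : ℝ))) →
  ∃ g : ℕ → ℕ → ℕ → ℂ, (∀ j i, BV (2 ^ 15 * L) (n + j * (2 ^ 15 * L)) (g j i)) ∧
    (∑ j ∈ range J, phi (Mq lam q (2 ^ 15 * L) (n + j * (2 ^ 15 * L)))) / J -
        phi (Mq lam q (J * (2 ^ 15 * L)) n) ≤
      (1 + η) * ((∑ j ∈ range J, phi (M lam (2 ^ 15 * L) (n + j * (2 ^ 15 * L)))) / J -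
        phi (M lam (J * (2 ^ 15 * L)) n)) +
      C / η * ((∑ j ∈ range J,
        (zz lam q (2 ^ 15 * L) (n + j * (2 ^ 15 * L)) (tV j) (fun _ => 1) ^ 2 +
          zz lam q (2 ^ 15 * L) (n + j * (2 ^ 15 * L)) (tV j) (g j 0) ^ 2 +
          zz lam q (2 ^ 15 * L) (n + j * (2 ^ 15 * L)) (tV j) (g j 1) ^ 2 +
          zz lam q (2 ^ 15 * L) (n + j * (2 ^ 15 * L)) tW (fun _ => 1) ^ 2 +
          zz lam q (2 ^ 15 * L) (n + j * (2 ^ 15 * L)) (al j) (fun _ => 1) ^ 2 +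
          ind (¬ Reg lam L (n + j * (2 ^ 15 * L))))) / J)

end Pool.Agent.H28.EN
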