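import Pool.Agent.H28.EN.Defs

/-!
# The energy argument for structure on windows: one window and one prime number, statements
-/

set_option autoImplicit false

open Finset Pool.Agent.H6.N4D Pool.Agent.H93.EB

namespace Pool.Agent.H28.EN

/-! ## waves -/

/-- GRE. The correlation with a wave is a real part. -/
def T_GRE : Prop := ∀ (f : ℕ → ℝ) (N n : ℕ) (θ φ : ℝ),
  G f N n θ φ = (ee (-φ) * cr f N n θ).re

/-- TOP. The largest correlation is attained. -/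
def T_TOP : Prop := ∀ (f : ℕ → ℝ) (N n : ℕ),
  (∀ θ, ‖cr f N n θ‖ ≤ M f N n) ∧ ∃ θ φ : ℝ, Top f N n θ φ ∧ G f N n θ φ = M f N n

/-- MQF. The largest correlation on the multiples of `q`. -/
def T_MQF : Prop := ∀ (lam : ℕ → ℝ) (q N n : ℕ), Mq lam q N n = M (fq lam q) N n

/-- SPL. The correlation on a window is the mean of those on its parts. -/
def T_SPL : Prop := ∀ (f : ℕ → ℝ) (N J n : ℕ), 1 ≤ N → 1 ≤ J →
  (∀ θ : ℝ, cr f (J * N) n θ = (∑ j ∈ range J, cr f N (n + j * N) θ) / J) ∧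
  ∀ θ φ : ℝ, G f (J * N) n θ φ = (∑ j ∈ range J, G f N (n + j * N) θ φ) / J

/-- GEO. The geometric series on the multiples of `q`. -/
def T_GEO : Prop := ∀ (q N n : ℕ) (β γ : ℝ), 1 ≤ q → 0 < nd (q * β) →
  |∑ m ∈ (Ioc n (n + N)).filter (fun m => q ∣ m), Real.cos (2 * Real.pi * (β * m + γ))| ≤
    1 / (2 * nd (q * β))

/-- FAR. Two waves with distant frequencies cannot both correlate. -/
def T_FAR : Prop := ∀ (f : ℕ → ℝ) (q N n : ℕ) (θ φ θ' φ' : ℝ), 1 ≤ q → 1 ≤ N →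
  (∀ m, |f m| ≤ if q ∣ m then (q : ℝ) else 0) →
  5 * (q : ℝ) / N ≤ nd (q * (θ - θ')) → 5 * (q : ℝ) / N ≤ nd (q * (θ + θ')) →
    G f N n θ φ + G f N n θ' φ' ≤ 11 / 10 + q / N

/-- SLO. Two waves are close to each other or their frequencies are distant. -/
def T_SLO : Prop := ∀ (q N n : ℕ) (θ φ θ' φ' : ℝ), 1 ≤ q → 1 ≤ N →
  (∃ r s : ℝ, |r| ≤ 1 / 2 ∧ |s| ≤ 5 ∧ ∀ m : ℕ, q ∣ m →
    Real.cos (2 * Real.pi * (θ' * m + φ')) =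
      Real.cos (2 * Real.pi * (th N θ s * m + ph N n φ r s))) ∨
  (5 * (q : ℝ) / N ≤ nd (q * (θ - θ')) ∧ 5 * (q : ℝ) / N ≤ nd (q * (θ + θ')))

/-! ## the peak -/

/-- MID. The wave in the middle of two waves. -/
def T_MID : Prop := ∀ (f : ℕ → ℝ) (N n : ℕ) (θ φ r s : ℝ), 1 ≤ N → Top f N n θ φ →
  2 * ((∑ m ∈ Ioc n (n + N), f m *
      (Real.cos (2 * Real.pi * (θ * m + φ) + Real.pi * (r + s * tt N n m)) *
        (1 - Real.cos (Real.pi * (r + s * tt N n m))))) / N) ≤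
    G f N n θ φ - G f N n (th N θ s) (ph N n φ r s)

/-- UNF. On a regular window the product of `lam` with its wave is uniform. -/
def T_UNF : Prop := ∀ (lam : ℕ → ℝ) (L n : ℕ) (θ φ a δ : ℝ) (g : ℕ → ℂ),
  (∀ m, |lam m| ≤ 1) → 1 ≤ L → Reg lam L n →
  G lam (2 ^ 15 * L) n θ φ = M lam (2 ^ 15 * L) n →
  (∀ m ∈ Ioc n (n + 2 ^ 15 * L), ‖g m‖ ≤ a) → 0 ≤ δ →
  (∀ u < 2 ^ 15, ∀ m ∈ Ioc (n + u * L) (n + u * L + L),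
    ∀ m' ∈ Ioc (n + u * L) (n + u * L + L), ‖g m - g m'‖ ≤ δ) →
  ‖(∑ m ∈ Ioc n (n + 2 ^ 15 * L), (lam m : ℂ) * ee (-(θ * m + φ)) * g m) /
        ((2 ^ 15 * L : ℕ) : ℂ) -
      (M lam (2 ^ 15 * L) n : ℂ) *
        ((∑ m ∈ Ioc n (n + 2 ^ 15 * L), g m) / ((2 ^ 15 * L : ℕ) : ℂ))‖ ≤
    a / 10 ^ 4 + 2 * δ

/-- NDS. The mean square of the distance to the integers. -/
def T_NDS : Prop := ∀ (N n : ℕ) (r s : ℝ), 1 ≤ N → |r| ≤ 1 / 2 → |s| ≤ 1 →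
  (|r| + |s|) ^ 2 / 144 ≤
    (∑ m ∈ Ioc n (n + 2 * N), nd (r + s * tt (2 * N) n m) ^ 2) / ((2 * N : ℕ) : ℝ)

/-- PK1. The peak, small differences. -/
def T_PK1 : Prop := ∀ (lam : ℕ → ℝ) (L n : ℕ) (θ φ r s : ℝ), (∀ m, |lam m| ≤ 1) → 1 ≤ L →
  Reg lam L n → Top lam (2 ^ 15 * L) n θ φ →
  G lam (2 ^ 15 * L) n θ φ = M lam (2 ^ 15 * L) n → 62 / 100 ≤ M lam (2 ^ 15 * L) n →
  |r| + |s| ≤ 3 / 10 →
    (|r| + |s|) ^ 2 / 1000 ≤ G lam (2 ^ 15 * L) n θ φ -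
      G lam (2 ^ 15 * L) n (th (2 ^ 15 * L) θ s) (ph (2 ^ 15 * L) n φ r s)

/-- PK2. The peak, large differences. -/
def T_PK2 : Prop := ∀ (lam : ℕ → ℝ) (L n : ℕ) (θ φ r s : ℝ), (∀ m, |lam m| ≤ 1) → 1 ≤ L →
  Reg lam L n → Top lam (2 ^ 15 * L) n θ φ →
  G lam (2 ^ 15 * L) n θ φ = M lam (2 ^ 15 * L) n → 62 / 100 ≤ M lam (2 ^ 15 * L) n →
  3 / 10 ≤ |r| + |s| → |r| ≤ 1 / 2 → |s| ≤ 5 →
    (|r| + |s|) ^ 2 / 1000 ≤ G lam (2 ^ 15 * L) n θ φ -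
      G lam (2 ^ 15 * L) n (th (2 ^ 15 * L) θ s) (ph (2 ^ 15 * L) n φ r s)

/-! ## the tests -/

/-- DIF. The difference quotient is a test. -/
def T_DIF : Prop := ∀ (lam : ℕ → ℝ) (q N n : ℕ) (θ φ r s : ℝ), 1 ≤ N →
  ∃ g : ℕ → ℂ, BV N n g ∧
    |G (dq lam q) N n (th N θ s) (ph N n φ r s) - G (dq lam q) N n θ φ| ≤
      2 * Real.pi * (|r| + |s|) * zz lam q N n θ g

/-- TST. The correlation with a wave is a test; the tests are bounded. -/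
def T_TST : Prop := ∀ (lam : ℕ → ℝ) (q N n : ℕ) (θ : ℝ), 1 ≤ N → 1 ≤ q → q ≤ N →
  (∀ m, |lam m| ≤ 1) →
  BV N n (fun _ => 1) ∧ (∀ φ : ℝ, |G (dq lam q) N n θ φ| ≤ zz lam q N n θ (fun _ => 1)) ∧
  (∀ φ : ℝ, G (fq lam q) N n θ φ = G lam N n θ φ + G (dq lam q) N n θ φ) ∧
  ∀ g : ℕ → ℂ, BV N n g → zz lam q N n θ g ≤ 3

/-! ## the inequality -/

/-- PHI. The function `phi`. -/
def T_PHI : Prop :=
  (∀ a b : ℝ, a ≤ b → phi a ≤ phi b) ∧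
  (∀ x u : ℝ, phi (x + u) ≤ phi x + dph x * u + u ^ 2) ∧
  (∀ x u : ℝ, phi x + dph x * u ≤ phi (x + u)) ∧
  (∀ a b : ℝ, (dph a - dph b) ^ 2 ≤ 4 * brg a b) ∧
  (∀ a b : ℝ, a ≤ 62 / 100 → dph b ≤ 100 * brg a b) ∧
  (∀ x u : ℝ, -u ^ 2 ≤ phi x + dph x * u)

/-- CLA. The upper bound on a window. -/
def T_CLA : Prop := ∀ (lam : ℕ → ℝ) (q L n : ℕ) (θ φ : ℝ), (∀ m, |lam m| ≤ 1) →
  1 ≤ q → 1 ≤ L → 100 * q ≤ 2 ^ 15 * L →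
  Top lam (2 ^ 15 * L) n θ φ → G lam (2 ^ 15 * L) n θ φ = M lam (2 ^ 15 * L) n →
  ∃ (α : ℝ) (g : ℕ → ℂ), BV (2 ^ 15 * L) n g ∧
    phi (Mq lam q (2 ^ 15 * L) n) ≤ phi (M lam (2 ^ 15 * L) n) +
      dph (M lam (2 ^ 15 * L) n) * G (dq lam q) (2 ^ 15 * L) n θ φ +
      10 ^ 10 * (zz lam q (2 ^ 15 * L) n θ (fun _ => 1) ^ 2 +
        zz lam q (2 ^ 15 * L) n α (fun _ => 1) ^ 2 +
        zz lam q (2 ^ 15 * L) n θ g ^ 2 + ind (¬ Reg lam L n))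

/-- CLB. The lower bound on a window. -/
def T_CLB : Prop := ∀ (lam : ℕ → ℝ) (q N n : ℕ) (θ φ : ℝ), 1 ≤ N →
  G lam N n θ φ = M lam N n →
    phi (M lam N n) + dph (M lam N n) * G (dq lam q) N n θ φ ≤ phi (Mq lam q N n)

/-- BRK. The comparison of the waves of a window and of one of its parts. -/
def T_BRK : Prop := ∀ (lam : ℕ → ℝ) (q L n : ℕ) (θ φ θ' φ' b η : ℝ), (∀ m, |lam m| ≤ 1) →
  1 ≤ q → 1 ≤ L → 100 * q ≤ 2 ^ 15 * L → 0 < η → η ≤ 1 → b ≤ 1 →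
  Top lam (2 ^ 15 * L) n θ φ → G lam (2 ^ 15 * L) n θ φ = M lam (2 ^ 15 * L) n →
  ∃ g : ℕ → ℂ, BV (2 ^ 15 * L) n g ∧
    dph (M lam (2 ^ 15 * L) n) * G (dq lam q) (2 ^ 15 * L) n θ φ -
        dph b * G (dq lam q) (2 ^ 15 * L) n θ' φ' ≤
      2 * η * (brg (M lam (2 ^ 15 * L) n) b +
        dph b * (M lam (2 ^ 15 * L) n - G lam (2 ^ 15 * L) n θ' φ')) +
      10 ^ 5 / η * (zz lam q (2 ^ 15 * L) n θ (fun _ => 1) ^ 2 +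
        zz lam q (2 ^ 15 * L) n θ' (fun _ => 1) ^ 2 +
        zz lam q (2 ^ 15 * L) n θ g ^ 2 + ind (¬ Reg lam L n))

/-- ONE. The main inequality for one window and one prime number. -/
def T_ONE : Prop := ∃ C : ℝ, 0 < C ∧ ∀ (lam : ℕ → ℝ) (q L J n : ℕ) (η : ℝ),
  (∀ m, |lam m| ≤ 1) → 0 < η → η ≤ 1 → 1 ≤ q → 1 ≤ L → 1 ≤ J → 100 * q ≤ 2 ^ 15 * L →
  ∃ (α : ℕ → ℕ → ℝ) (g : ℕ → ℕ → ℕ → ℂ),
    (∀ j i, BV (2 ^ 15 * L) (n + j * (2 ^ 15 * L)) (g j i)) ∧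
    (∑ j ∈ range J, phi (Mq lam q (2 ^ 15 * L) (n + j * (2 ^ 15 * L)))) / J -
        phi (Mq lam q (J * (2 ^ 15 * L)) n) ≤
      (1 + η) * ((∑ j ∈ range J, phi (M lam (2 ^ 15 * L) (n + j * (2 ^ 15 * L)))) / J -
        phi (M lam (J * (2 ^ 15 * L)) n)) +
      C / η * ((∑ j ∈ range J, (∑ i ∈ range 5,
        zz lam q (2 ^ 15 * L) (n + j * (2 ^ 15 * L)) (α j i) (g j i) ^ 2 +
          ind (¬ Reg lam L (n + j * (2 ^ 15 * L))))) / J)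

end Pool.Agent.H28.EN
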